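import Mathlib

namespace Pool.Agent.Results.MP_5daced_lc.Characterization

/-- Formulas in negation normal form. -/
inductive Fm : Type
  | pos (p : ℕ) : Fm
  | ng (p : ℕ) : Fm
  | bot : Fm
  | top : Fm
  | and (a b : Fm) : Fm
  | or (a b : Fm) : Fm
  | dia (a : Fm) : Fm
  | box (a : Fm) : Fm

/-- No literal `¬p` with `p ∈ P` occurs in the formula. -/
def PosIn (P : Set ℕ) : Fm → Prop
  | .pos _ => True
  | .ng p => p ∉ P
  | .bot => True
  | .top => True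
  | .and a b => PosIn P a ∧ PosIn P b
  | .or a b => PosIn P a ∧ PosIn P b
  | .dia a => PosIn P a
  | .box a => PosIn P a

/-- The truth set of a formula in the model with operator `D` and valuation `θ`. -/
def val {W : Type} (D : Set W → Set W) (θ : ℕ → Set W) : Fm → Set W
  | .pos p => θ p
  | .ng p => (θ p)ᶜ
  | .bot => ∅
  | .top => Set.univ
  | .and a b => val D θ a ∩ val D θ b
  | .or a b => val D θ a ∪ val D θ b
  | .dia a => D (val D θ a)
  | .box a => (D (val D θ a)ᶜ)ᶜ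

/-- The image `Z(X)`. -/
def img {W : Type} (Z : W → W → Prop) (X : Set W) : Set W := {y | ∃ x ∈ X, Z x y}

/-- The image `Z⁻¹(Y)` under the converse relation. -/
def inv {W : Type} (Z : W → W → Prop) (Y : Set W) : Set W := {x | ∃ y ∈ Y, Z x y}

/-- `Z` is a `P`-directed bisimulation from the model `(W, D, θ₁)` to the model `(W, D, θ₂)`. -/
def DirBisim {W : Type} (D : Set W → Set W) (P : Set ℕ) (θ₁ θ₂ : ℕ → Set W)
    (Z : W → W → Prop) : Prop :=
  (∀ X, img Z (D X) ⊆ D (img Z X)) ∧ (∀ Y, inv Z (D Y) ⊆ D (inv Z Y)) ∧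
    (∀ p, img Z (θ₁ p) ⊆ θ₂ p) ∧ ∀ p, p ∉ P → img Z (θ₁ p)ᶜ ⊆ (θ₂ p)ᶜ

def Below (N : ℕ) : Fm → Prop
  | .pos p => p < N
  | .ng p => p < N
  | .bot => True
  | .top => True
  | .and a b => Below N a ∧ Below N b
  | .or a b => Below N a ∧ Below N b
  | .dia a => Below N a
  | .box a => Below N a

lemma Below.mono {N M : ℕ} (h : N ≤ M) (a : Fm) (ha : Below N a) : Below M a := by
  induction a <;> simp_all [Below] <;> omega

lemma exists_below (a : Fm) : ∃ N, Below N a := by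
  induction a with
  | pos p => exact ⟨p + 1, Nat.lt_succ_self p⟩
  | ng p => exact ⟨p + 1, Nat.lt_succ_self p⟩
  | bot => exact ⟨0, trivial⟩
  | top => exact ⟨0, trivial⟩
  | and a b ha hb =>
    obtain ⟨n, hn⟩ := ha
    obtain ⟨m, hm⟩ := hb
    exact ⟨max n m, hn.mono (le_max_left _ _) _, hm.mono (le_max_right _ _) _⟩
  | or a b ha hb =>
    obtain ⟨n, hn⟩ := ha
    obtain ⟨m, hm⟩ := hb
    exact ⟨max n m, hn.mono (le_max_left _ _) _, hm.mono (le_max_right _ _) _⟩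
  | dia a ha => exact ha
  | box a ha => exact ha

variable {W : Type} {D : Set W → Set W} {P : Set ℕ} {N : ℕ}

lemma val_congr {θ θ' : ℕ → Set W} (h : ∀ p < N, θ p = θ' p) (a : Fm) (ha : Below N a) :
    val D θ a = val D θ' a := by
  induction a <;> simp_all [Below, val]

lemma preserve (hD : Monotone D) {θ₁ θ₂ : ℕ → Set W} {Z : W → W → Prop}
    (hZ : DirBisim D P θ₁ θ₂ Z) (a : Fm) (ha : PosIn P a) :
    img Z (val D θ₁ a) ⊆ val D θ₂ a := by
  induction a with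
  | pos p => exact hZ.2.2.1 p
  | ng p => exact hZ.2.2.2 p ha
  | bot => rintro y ⟨x, hx, -⟩; exact hx
  | top => exact Set.subset_univ _
  | and a b iha ihb =>
    rintro y ⟨x, hx, r⟩
    exact ⟨iha ha.1 ⟨x, hx.1, r⟩, ihb ha.2 ⟨x, hx.2, r⟩⟩
  | or a b iha ihb =>
    rintro y ⟨x, hx | hx, r⟩
    · exact Or.inl (iha ha.1 ⟨x, hx, r⟩)
    · exact Or.inr (ihb ha.2 ⟨x, hx, r⟩)
  | dia a ih => exact (hZ.1 _).trans (hD (ih ha))
  | box a ih =>
    rintro y ⟨x, hx, r⟩ hy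
    refine hx (hD ?_ (hZ.2.1 _ ⟨y, hy, r⟩))
    rintro x' ⟨y', hy', r'⟩ hx'
    exact hy' (ih ha ⟨x', hx', r'⟩)

lemma conj {ι : Type} [Finite ι] (f : ι → Fm) (hf : ∀ i, PosIn P (f i) ∧ Below N (f i)) :
    ∃ b, (PosIn P b ∧ Below N b) ∧ ∀ θ, val D θ b = ⋂ i, val D θ (f i) := by
  classical
  have := Fintype.ofFinite ι
  have key : ∀ s : Finset ι, ∃ b, (PosIn P b ∧ Below N b) ∧
      ∀ θ, val D θ b = ⋂ i ∈ s, val D θ (f i) := by
    intro s
    induction s using Finset.induction_on with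
    | empty => exact ⟨.top, ⟨trivial, trivial⟩, fun θ => by simp [val]⟩
    | insert i s _ ih =>
      obtain ⟨b, hb, e⟩ := ih
      exact ⟨.and (f i) b, ⟨⟨(hf i).1, hb.1⟩, ⟨(hf i).2, hb.2⟩⟩, fun θ => by
        rw [Finset.set_biInter_insert, ← e]; rfl⟩
  simpa using key Finset.univ

lemma disj {ι : Type} [Finite ι] (f : ι → Fm) (hf : ∀ i, PosIn P (f i) ∧ Below N (f i)) :
    ∃ b, (PosIn P b ∧ Below N b) ∧ ∀ θ, val D θ b = ⋃ i, val D θ (f i) := by
  classical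
  have := Fintype.ofFinite ι
  have key : ∀ s : Finset ι, ∃ b, (PosIn P b ∧ Below N b) ∧
      ∀ θ, val D θ b = ⋃ i ∈ s, val D θ (f i) := by
    intro s
    induction s using Finset.induction_on with
    | empty => exact ⟨.bot, ⟨trivial, trivial⟩, fun θ => by simp [val]⟩
    | insert i s _ ih =>
      obtain ⟨b, hb, e⟩ := ih
      exact ⟨.or (f i) b, ⟨⟨(hf i).1, hb.1⟩, ⟨(hf i).2, hb.2⟩⟩, fun θ => by
        rw [Finset.set_biUnion_insert, ← e]; rfl⟩
  simpa using key Finset.univ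

/-- Separating a set `X` of the first model from a set `Y` of the second. -/
lemma sep [Finite W] (θ₁ θ₂ : ℕ → Set W) (X Y : Set W)
    (h : ∀ x ∈ X, ∀ y ∈ Y, ∃ a, (PosIn P a ∧ Below N a) ∧ x ∈ val D θ₁ a ∧ y ∉ val D θ₂ a) :
    ∃ b, (PosIn P b ∧ Below N b) ∧ X ⊆ val D θ₁ b ∧ val D θ₂ b ⊆ Yᶜ := by
  choose f hf h1 h2 using h
  have : ∀ x : X, ∃ b, (PosIn P b ∧ Below N b) ∧
      ∀ θ, val D θ b = ⋂ y : Y, val D θ (f x x.2 y y.2) :=
    fun x => conj _ fun y => hf _ _ _ _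
  choose g hg eg using this
  obtain ⟨b, hb, e⟩ := disj (D := D) g hg
  refine ⟨b, hb, fun x hx => ?_, fun y hy hy' => ?_⟩
  · rw [e, Set.mem_iUnion]
    exact ⟨⟨x, hx⟩, by rw [eg, Set.mem_iInter]; exact fun y => h1 _ _ _ _⟩
  · rw [e, Set.mem_iUnion] at hy
    obtain ⟨x, hx⟩ := hy
    rw [eg, Set.mem_iInter] at hx
    exact h2 _ _ _ _ (hx ⟨y, hy'⟩)

def ext (N : ℕ) (η : Fin N → Set W) (p : ℕ) : Set W := if h : p < N then η ⟨p, h⟩ else ∅

lemma canon [Finite W] (hD : Monotone D) (η₁ η₂ : Fin N → Set W) :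
    DirBisim D P (ext N η₁) (ext N η₂)
      (fun x y => ∀ a, (PosIn P a ∧ Below N a) → x ∈ val D (ext N η₁) a → y ∈ val D (ext N η₂) a) := by
  set Z : W → W → Prop := fun x y => ∀ a, (PosIn P a ∧ Below N a) →
    x ∈ val D (ext N η₁) a → y ∈ val D (ext N η₂) a with hZ
  have hn : ∀ x y, ¬ Z x y → ∃ a, (PosIn P a ∧ Below N a) ∧ x ∈ val D (ext N η₁) a ∧
      y ∉ val D (ext N η₂) a := by
    intro x y h
    by_contra hh
    exact h fun a ha hx => by_contra fun hy => hh ⟨a, ha, hx, hy⟩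
  refine ⟨fun X => ?_, fun Y => ?_, fun p => ?_, fun p hp => ?_⟩
  · rintro y ⟨x, hx, r⟩
    obtain ⟨b, hb, h1, h2⟩ := sep (D := D) (ext N η₁) (ext N η₂) X (img Z X)ᶜ
      fun x hx y hy => hn x y fun r => hy ⟨x, hx, r⟩
    rw [compl_compl] at h2
    exact hD h2 (r (.dia b) hb (hD h1 hx))
  · rintro x ⟨y, hy, r⟩
    obtain ⟨b, hb, h1, h2⟩ := sep (D := D) (ext N η₁) (ext N η₂) (inv Z Y)ᶜ Y
      fun x hx y hy => hn x y fun r => hx ⟨y, hy, r⟩
    by_contra hx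
    refine r (.box b) hb (fun hx' => hx (hD (Set.compl_subset_comm.1 h1) hx'))
      (hD (Set.subset_compl_comm.1 h2) hy)
  · rintro y ⟨x, hx, r⟩
    by_cases h : p < N
    · exact r (.pos p) ⟨trivial, h⟩ hx
    · simp [ext, h] at hx
  · rintro y ⟨x, hx, r⟩
    by_cases h : p < N
    · exact r (.ng p) ⟨hp, h⟩ hx
    · simp [ext, h]

theorem result (W : Type) [Finite W] (D : Set W → Set W) (hD : Monotone D) (P : Set ℕ) (φ : Fm) :
    (∃ ψ, PosIn P ψ ∧ ∀ θ, val D θ φ = val D θ ψ) ↔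
      ∀ θ₁ θ₂ Z, DirBisim D P θ₁ θ₂ Z → img Z (val D θ₁ φ) ⊆ val D θ₂ φ := by
  constructor
  · rintro ⟨ψ, hψ, e⟩ θ₁ θ₂ Z hZ
    rw [e, e]
    exact preserve hD hZ ψ hψ
  intro h
  obtain ⟨N, hN⟩ := exists_below φ
  let A := {t : (Fin N → Set W) × W // t.2 ∈ val D (ext N t.1) φ}
  let B := {t : (Fin N → Set W) × W // t.2 ∉ val D (ext N t.1) φ}
  have : ∀ (s : A) (t : B), ∃ a, (PosIn P a ∧ Below N a) ∧ s.1.2 ∈ val D (ext N s.1.1) a ∧
      t.1.2 ∉ val D (ext N t.1.1) a := by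
    intro s t
    by_contra hh
    exact t.2 (h _ _ _ (canon hD s.1.1 t.1.1)
      ⟨s.1.2, s.2, fun a ha hx => by_contra fun hy => hh ⟨a, ha, hx, hy⟩⟩)
  choose f hf h1 h2 using this
  have : ∀ s : A, ∃ b, (PosIn P b ∧ Below N b) ∧ ∀ θ, val D θ b = ⋂ t : B, val D θ (f s t) :=
    fun s => conj _ fun t => hf _ _
  choose g hg eg using this
  obtain ⟨b, hb, e⟩ := disj (D := D) g hg
  refine ⟨b, hb.1, fun θ => ?_⟩
  have hθ : ∀ p < N, θ p = ext N (fun i => θ i) p := fun p hp => by simp [ext, hp]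
  rw [val_congr hθ φ hN, val_congr hθ b hb.2, e]
  ext x
  rw [Set.mem_iUnion]
  constructor
  · intro hx
    refine ⟨⟨(fun i => θ i, x), hx⟩, ?_⟩
    rw [eg, Set.mem_iInter]
    exact fun t => h1 ⟨(fun i => θ i, x), hx⟩ t
  · rintro ⟨s, hs⟩
    by_contra hx
    rw [eg, Set.mem_iInter] at hs
    exact h2 s ⟨(fun i => θ i, x), hx⟩ (hs _)

end Pool.Agent.Results.MP_5daced_lc.Characterization
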